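import Pool.Agent.Run7.h49.JT.Iface

set_option autoImplicit false

namespace Run7.h744.JT

open Pool.Agent.R277.JT Set Filter Topology Run7.h49.JT

lemma Lm_cut (y : D Tree) (d : ℕ → Bool) (k : ℕ) : Lm (br d) (cut y (lv Tree k)) = Lm (br d) y := by
  have h1 := tendsto_Lm (br d) (cut y (lv Tree k))
  have h2 := tendsto_Lm (br d) y
  refine tendsto_nhds_unique h1 (h2.congr' ?_)
  filter_upwards [eventually_ge_atTop k] with n hn
  rw [cut_apply, res_of_supp]
  intro i hi
  apply val_ev_ne
  rintro rfl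
  exact hi (show k ≤ lev (br d n) by rw [IsBr.lev_eq]; exact hn)

theorem prove_A3 : S_A3 := by
  classical
  intro y σ hσ m k δ h J hJ
  set g := cut y (lv Tree k) - ∑ i ∈ Finset.range m, Lm (br (σ i)) y • sg (br (σ i)) k with hg
  have h1 : ∀ i ∈ J, Lm (br (σ i)) g = Lm (br (σ i)) y := by
    intro i hi
    rw [hg, Lm_sub, Lm_cut, Lm_sum]
    have h2 : ∑ j ∈ Finset.range m, Lm (br (σ i)) (Lm (br (σ j)) y • sg (br (σ j)) k) = 0 := by
      apply Finset.sum_eq_zero
      intro j hj
      rw [Lm_smul, Lm_sg, if_neg, mul_zero]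
      intro hc
      have := hσ hc
      have h3 := hJ i hi
      have h4 := Finset.mem_range.1 hj
      omega
    rw [h2, sub_zero]
  have h2 := sum_Lm_sq g (J.image σ)
  rw [Finset.sum_image (fun a _ b _ hab => hσ hab)] at h2
  have h3 : ∑ i ∈ J, (Lm (br (σ i)) y) ^ 2 = ∑ i ∈ J, (Lm (br (σ i)) g) ^ 2 :=
    Finset.sum_congr rfl fun i hi => by rw [h1 i hi]
  rw [h3]
  exact h2.trans (pow_le_pow_left₀ (norm_nonneg _) h 2)

theorem prove_A4 : S_A4 := by
  classical
  intro z k
  have hfin := Lev.fin (I := Tree) k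
  apply ContinuousLinearMap.opNorm_le_bound _ (Finset.sum_nonneg fun _ _ => abs_nonneg _)
  intro x
  have h1 : res (lo Tree k) x = ∑ i ∈ hfin.toFinset, x.val i • ev i := by
    apply ext_val
    intro j
    rw [val_res]
    have h2 : (∑ i ∈ hfin.toFinset, x.val i • ev i).val j =
        ∑ i ∈ hfin.toFinset, x.val i * (ev i : Pre Tree).val j := by
      have h3 := ss_sum {j} hfin.toFinset (fun i => x.val i • (ev i : Pre Tree))
      simpa [ss, val_smul] using h3
    rw [h2]
    simp only [val_ev, mul_ite, mul_one, mul_zero]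
    rw [Finset.sum_ite_eq']
    simp only [Set.Finite.mem_toFinset]
    congr 1
  rw [cut_apply, h1, map_sum, Real.norm_eq_abs, Finset.sum_mul]
  refine (Finset.abs_sum_le_sum_abs _ _).trans (Finset.sum_le_sum fun i _ => ?_)
  rw [map_smul, smul_eq_mul, abs_mul, mul_comm]
  exact mul_le_mul_of_nonneg_left (val_le x i) (abs_nonneg _)

end Run7.h744.JT
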